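import Pool.Agent.H377Z.Pring.Trig

set_option autoImplicit false

namespace Pool.Agent.H377Z.Pring

open Real Finset Filter Topology

def gI (j : ℕ) : ℕ := (Nat.unpair j).1
def aI (j : ℕ) : ℕ := (Nat.unpair (Nat.unpair j).2).1
def bI (j : ℕ) : ℕ := (Nat.unpair (Nat.unpair j).2).2
def Act (j : ℕ) : Prop := aI j < 2 * gI j ∧ bI j < 2 * gI j
def rr (j : ℕ) : ℕ := 2 ^ (j + 2)
def NN (j : ℕ) : ℕ := 32 * gI j * 2 ^ rr j
def MM (j : ℕ) : ℕ := 2 ^ 2 ^ (j + 3)
noncomputable def LL (j : ℕ) : ℝ := gI j * (32 * gI j * 2 ^ rr j)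

open Classical in
noncomputable def amp (j : ℕ) : ℝ := if Act j then 64 / (LL j * rr j) else 0

noncomputable def phase (j : ℕ) (m n : ℝ) : ℝ :=
  -(m * n / LL j + m * (aI j / (2 * gI j)) + n * (bI j / (2 * gI j)))

noncomputable def coef (j : ℕ) (k : Fin 2 → ℤ) : ℂ :=
  amp j * Complex.exp (2 * π * Complex.I * (phase j (k 0 - MM j) (k 1 - MM j) : ℝ))

noncomputable def blk (j : ℕ) : Finset (Fin 2 → ℤ) :=
  Fintype.piFinset fun _ => Ico (MM j : ℤ) (MM j + NN j)

lemma mem_blk {j : ℕ} {k : Fin 2 → ℤ} : k ∈ blk j ↔ ∀ i, (MM j : ℤ) ≤ k i ∧ k i < MM j + NN j := by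
  simp [blk]

lemma card_blk (j : ℕ) : (blk j).card = NN j ^ 2 := by
  simp [blk, Fintype.card_piFinset]

lemma gI_le (j : ℕ) : gI j ≤ j := Nat.unpair_left_le j

lemma NN_le (j : ℕ) : NN j ≤ MM j := by
  have h1 : 32 * gI j ≤ 2 ^ rr j := by
    rcases Nat.eq_zero_or_pos j with rfl | hj
    · have := gI_le 0
      have h0 : gI 0 = 0 := by omega
      simp [h0]
    · have h2 : j < 2 ^ j := Nat.lt_two_pow_self
      have h3 : 5 + j ≤ rr j := by
        unfold rr
        rw [pow_add]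
        omega
      calc 32 * gI j ≤ 32 * 2 ^ j := by have := gI_le j; omega
        _ = 2 ^ (5 + j) := by rw [pow_add]; norm_num
        _ ≤ _ := Nat.pow_le_pow_right (by norm_num) h3
  calc NN j ≤ 2 ^ rr j * 2 ^ rr j := Nat.mul_le_mul_right _ h1
    _ = MM j := by
      unfold MM rr
      rw [← pow_add]
      congr 1
      ring

lemma MM_succ (j : ℕ) : MM (j + 1) = MM j * MM j := by
  unfold MM
  rw [← pow_add]
  congr 1
  ring

lemma two_le_MM (j : ℕ) : 2 ≤ MM j := by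
  unfold MM
  calc 2 = 2 ^ 1 := rfl
    _ ≤ _ := Nat.pow_le_pow_right (by norm_num) Nat.one_le_two_pow

lemma MM_mono : Monotone MM := monotone_nat_of_le_succ fun j => by
  rw [MM_succ]; exact Nat.le_mul_of_pos_right _ (by have := two_le_MM j; omega)

lemma le_MM (j : ℕ) : j ≤ MM j := by
  unfold MM
  have h1 : j + 3 < 2 ^ (j + 3) := Nat.lt_two_pow_self
  have h2 : 2 ^ (j + 3) < 2 ^ 2 ^ (j + 3) := Nat.lt_two_pow_self
  omega

lemma MM_add_le {i j : ℕ} (h : i < j) : MM i + NN i ≤ MM j := by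
  have h1 := NN_le i
  have h2 := two_le_MM i
  have h3 : MM (i + 1) ≤ MM j := MM_mono h
  rw [MM_succ] at h3
  nlinarith

lemma blk_unique {i j : ℕ} {k : Fin 2 → ℤ} (hi : k ∈ blk i) (hj : k ∈ blk j) : i = j := by
  have h1 := mem_blk.1 hi 0
  have h2 := mem_blk.1 hj 0
  rcases lt_trichotomy i j with h | h | h
  · have := MM_add_le h; omega
  · exact h
  · have := MM_add_le h; omega

open Classical in
noncomputable def idx (k : Fin 2 → ℤ) : ℕ := if h : ∃ j, k ∈ blk j then h.choose else 0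

lemma idx_eq {j : ℕ} {k : Fin 2 → ℤ} (h : k ∈ blk j) : idx k = j := by
  have h' : ∃ j, k ∈ blk j := ⟨j, h⟩
  rw [idx, dif_pos h']
  exact blk_unique h'.choose_spec h

noncomputable def cc (k : Fin 2 → ℤ) : ℂ := if k ∈ blk (idx k) then coef (idx k) k else 0

lemma cc_eq {j : ℕ} {k : Fin 2 → ℤ} (h : k ∈ blk j) : cc k = coef j k := by
  rw [cc, idx_eq h, if_pos h]

lemma cc_neg {k : Fin 2 → ℤ} {i : Fin 2} (h : k i < 0) : cc k = 0 := by
  rw [cc, if_neg]
  intro h'
  have := (mem_blk.1 h' i).1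
  omega

lemma amp_nonneg (j : ℕ) : 0 ≤ amp j := by
  unfold amp LL; split_ifs <;> positivity

lemma norm_coef (j : ℕ) (k : Fin 2 → ℤ) : ‖coef j k‖ = amp j := by
  rw [coef, norm_mul, Complex.norm_real, Real.norm_of_nonneg (amp_nonneg j)]
  have : (2 * π * Complex.I * (phase j (k 0 - MM j) (k 1 - MM j) : ℝ) : ℂ)
      = ((2 * π * phase j (k 0 - MM j) (k 1 - MM j) : ℝ) : ℂ) * Complex.I := by push_cast; ring
  rw [this, Complex.norm_exp_ofReal_mul_I, mul_one]

/-- energy of a block -/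
noncomputable def en (j : ℕ) : ℝ := amp j ^ 2 * (NN j : ℝ) ^ 2

lemma en_nonneg (j : ℕ) : 0 ≤ en j := by unfold en; positivity

lemma sum_le (w : (Fin 2 → ℤ) → ℝ) (W : ℕ → ℝ) (hW0 : ∀ j, 0 ≤ W j)
    (hw : ∀ j, ∀ k ∈ blk j, w k ≤ W j) (hs : Summable fun j => W j * en j)
    (T : Finset (Fin 2 → ℤ)) : ∑ k ∈ T, w k * ‖cc k‖ ^ 2 ≤ ∑' j, W j * en j := by
  classical
  rw [← Finset.sum_fiberwise_of_maps_to (s := T) (t := T.image idx) (g := idx)
    (fun k hk => mem_image_of_mem _ hk)]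
  refine le_trans (Finset.sum_le_sum fun j _ => ?_)
    (hs.sum_le_tsum _ fun j _ => mul_nonneg (hW0 j) (en_nonneg j))
  calc ∑ k ∈ T with idx k = j, w k * ‖cc k‖ ^ 2
      ≤ ∑ k ∈ T with idx k = j, (if k ∈ blk j then W j * amp j ^ 2 else 0) := by
        refine Finset.sum_le_sum fun k hk => ?_
        have hj := (mem_filter.1 hk).2
        split_ifs with h
        · rw [cc_eq h, norm_coef]
          exact mul_le_mul_of_nonneg_right (hw j k h) (sq_nonneg _)
        · rw [cc, hj, if_neg h]; simp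
    _ ≤ ∑ k ∈ blk j, W j * amp j ^ 2 := by
        rw [← Finset.sum_filter]
        exact Finset.sum_le_sum_of_subset_of_nonneg (fun k hk => (mem_filter.1 hk).2)
          fun k _ _ => mul_nonneg (hW0 j) (sq_nonneg _)
    _ = W j * en j := by
        rw [Finset.sum_const, card_blk, nsmul_eq_mul, en]; push_cast; ring

lemma act_bound {j : ℕ} (h : Act j) : 1 ≤ gI j ∧ j + 6 ≤ 31 * gI j ^ 4 := by
  obtain ⟨h1, h2⟩ := h
  have hg : 1 ≤ gI j := by omega
  refine ⟨hg, ?_⟩
  have e1 : Nat.pair (aI j) (bI j) = (Nat.unpair j).2 := Nat.pair_unpair _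
  have e2 : Nat.pair (gI j) (Nat.unpair j).2 = j := Nat.pair_unpair _
  have h3 := Nat.pair_lt_max_add_one_sq (aI j) (bI j)
  have h4 := Nat.pair_lt_max_add_one_sq (gI j) (Nat.unpair j).2
  rw [e1] at h3
  rw [e2] at h4
  have h5 : (max (aI j) (bI j) + 1) ^ 2 ≤ (2 * gI j) ^ 2 := Nat.pow_le_pow_left (by omega) 2
  have h6 : max (gI j) (Nat.unpair j).2 + 1 ≤ 5 * gI j ^ 2 := by
    have : gI j < 5 * gI j ^ 2 := by nlinarith
    have : (Nat.unpair j).2 < 5 * gI j ^ 2 := by nlinarith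
    omega
  have h7 : (max (gI j) (Nat.unpair j).2 + 1) ^ 2 ≤ (5 * gI j ^ 2) ^ 2 := Nat.pow_le_pow_left h6 2
  have h8 : 1 ≤ gI j ^ 4 := Nat.one_le_pow _ _ hg
  nlinarith

lemma en_le (j : ℕ) : en j ≤ 1536 / √(j + 6) * (1 / 4) ^ j := by
  unfold en amp
  split_ifs with h
  · obtain ⟨hg, hj⟩ := act_bound h
    have hg' : (1 : ℝ) ≤ gI j := by exact_mod_cast hg
    have hj' : (j : ℝ) + 6 ≤ 31 * (gI j : ℝ) ^ 4 := by exact_mod_cast hj
    have h1 : √(j + 6) ≤ 6 * (gI j : ℝ) ^ 2 := by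
      rw [Real.sqrt_le_left (by positivity)]
      nlinarith [pow_nonneg (show (0 : ℝ) ≤ gI j by positivity) 4]
    have h2 : (64 / (LL j * rr j)) ^ 2 * (NN j : ℝ) ^ 2
        = 1536 / (6 * (gI j : ℝ) ^ 2) * (1 / 4) ^ j := by
      unfold LL NN
      have : ((rr j : ℕ) : ℝ) = 4 * 2 ^ j := by unfold rr; push_cast; ring
      rw [this]
      have e : ((1 : ℝ) / 4) ^ j = 1 / (2 ^ j) ^ 2 := by
        rw [one_div_pow, ← pow_mul, mul_comm j 2, pow_mul]; norm_num
      rw [e]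
      push_cast
      field_simp
      norm_num
    rw [h2]
    gcongr
  · simp; positivity

lemma en_le' (j : ℕ) : en j ≤ 1536 * (1 / 4) ^ j := by
  refine (en_le j).trans ?_
  gcongr
  refine div_le_self (by norm_num) ?_
  rw [Real.one_le_sqrt]
  have : (0 : ℝ) ≤ j := Nat.cast_nonneg _
  linarith

lemma summable_geo : Summable fun j : ℕ => ((1 : ℝ) / 4) ^ j :=
  summable_geometric_of_lt_one (by norm_num) (by norm_num)

lemma tsum_geo : ∑' j : ℕ, ((1 : ℝ) / 4) ^ j = 4 / 3 := by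
  rw [tsum_geometric_of_lt_one (by norm_num) (by norm_num)]; norm_num

lemma summable_en : Summable en :=
  Summable.of_nonneg_of_le en_nonneg en_le' (summable_geo.mul_left _)

lemma summable_cc : Summable fun k => ‖cc k‖ ^ 2 := by
  refine summable_of_sum_le (c := ∑' j, 1 * en j) (fun k => sq_nonneg _) fun T => ?_
  simpa using sum_le (fun _ => 1) (fun _ => 1) (fun _ => zero_le_one) (fun _ _ _ => le_rfl)
    (by simpa using summable_en) T

/-- the bound for the weighted energy -/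
lemma weighted_le {δ : ℝ} (hδ : 0 < δ) {J : ℕ} (hJ : (MM (J + 1) : ℝ) * δ ≤ 1)
    (w : (Fin 2 → ℤ) → ℝ) (hw1 : ∀ k, w k ≤ 4)
    (hw2 : ∀ k, w k ≤ ((|(k 0 : ℝ)| + |(k 1 : ℝ)|) * δ) ^ 2) (T : Finset (Fin 2 → ℤ)) :
    ∑ k ∈ T, w k * ‖cc k‖ ^ 2 ≤ 32768 * δ + 2048 / √(J + 6) * (1 / 4) ^ J := by
  let W : ℕ → ℝ := fun j => if j ≤ J then 16 * δ else 4
  have hW0 : ∀ j, 0 ≤ W j := fun j => by simp only [W]; split_ifs <;> positivity
  have hsq : 0 < √((J : ℝ) + 6) := Real.sqrt_pos.2 (by positivity)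
  let V : ℕ → ℝ := fun j => if J < j then 4 * (1536 / √(J + 6)) * (1 / 4) ^ j else 0
  have hV : HasSum V (2048 / √(J + 6) * (1 / 4) ^ J) := by
    rw [← hasSum_nat_add_iff' (J + 1)]
    have e1 : ∑ i ∈ range (J + 1), V i = 0 :=
      Finset.sum_eq_zero fun i hi => if_neg (by have := mem_range.1 hi; omega)
    rw [e1, sub_zero]
    have e2 : (fun n => V (n + (J + 1)))
        = fun n => (1536 / √(J + 6) * (1 / 4) ^ J) * (1 / 4) ^ n := by
      funext n
      simp only [V]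
      rw [if_pos (by omega)]
      ring
    rw [e2]
    have := summable_geo.hasSum.mul_left (1536 / √(J + 6) * (1 / 4) ^ J)
    rw [tsum_geo] at this
    have e3 : 2048 / √(J + 6) * ((1 : ℝ) / 4) ^ J = 1536 / √(J + 6) * (1 / 4) ^ J * (4 / 3) := by
      ring
    rw [e3]
    exact this
  have hle : ∀ j, W j * en j ≤ 16 * δ * 1536 * (1 / 4) ^ j + V j := by
    intro j
    simp only [W, V]
    by_cases h : j ≤ J
    · rw [if_pos h, if_neg (by omega), add_zero, mul_assoc (16 * δ)]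
      exact mul_le_mul_of_nonneg_left (en_le' j) (by positivity)
    · rw [if_neg h, if_pos (by omega)]
      have h1 : en j ≤ 1536 / √(J + 6) * (1 / 4) ^ j := by
        refine (en_le j).trans ?_
        have : (J : ℝ) ≤ j := by exact_mod_cast (by omega : J ≤ j)
        gcongr
      have : 0 ≤ 16 * δ * 1536 * ((1 : ℝ) / 4) ^ j := by positivity
      linarith
  have hS : HasSum (fun j => 16 * δ * 1536 * ((1 : ℝ) / 4) ^ j + V j)
      (16 * δ * 1536 * (4 / 3) + 2048 / √(J + 6) * (1 / 4) ^ J) := by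
    have := summable_geo.hasSum.mul_left (16 * δ * 1536)
    rw [tsum_geo] at this
    exact this.add hV
  have hs : Summable fun j => W j * en j :=
    Summable.of_nonneg_of_le (fun j => mul_nonneg (hW0 j) (en_nonneg j)) hle hS.summable
  refine (sum_le w W hW0 ?_ hs T).trans ((hs.tsum_le_tsum hle hS.summable).trans ?_)
  · intro j k hk
    simp only [W]
    split_ifs with h
    · refine (hw2 k).trans ?_
      have hb : ∀ i, |(k i : ℝ)| ≤ 2 * MM J := by
        intro i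
        obtain ⟨h1, h2⟩ := mem_blk.1 hk i
        have h3 := NN_le j
        have h4 : MM j ≤ MM J := MM_mono h
        have h5 : |k i| ≤ 2 * MM J := by rw [abs_le]; constructor <;> omega
        exact_mod_cast h5
      have h6 : (|(k 0 : ℝ)| + |(k 1 : ℝ)|) * δ ≤ 4 * MM J * δ := by
        have := hb 0; have := hb 1
        gcongr; linarith
      have h7 : (MM J : ℝ) * MM J * δ ≤ 1 := by
        rw [MM_succ] at hJ; push_cast at hJ; exact hJ
      calc _ ≤ (4 * MM J * δ) ^ 2 := pow_le_pow_left₀ (by positivity) h6 2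
        _ = 16 * δ * ((MM J : ℝ) * MM J * δ) := by ring
        _ ≤ 16 * δ * 1 := by gcongr
        _ = _ := by ring
    · exact hw1 k
  · rw [hS.tsum_eq]; linarith

end Pool.Agent.H377Z.Pring
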