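import Mathlib

set_option autoImplicit false

namespace Pool.Agent.H377Z.Pring

open MeasureTheory
open scoped ENNReal

/-- Normalised Lebesgue measure on the torus `(ℝ/ℤ)^d`. -/
noncomputable def haarT (d : ℕ) : Measure (UnitAddTorus (Fin d)) :=
  Measure.pi fun _ => AddCircle.haarAddCircle

/-- The point of `(ℝ/ℤ)^d` that corresponds to `h` in `(ℝ/2πℤ)^d`. -/
noncomputable def shift {d : ℕ} (h : EuclideanSpace ℝ (Fin d)) : UnitAddTorus (Fin d) :=
  fun i => ((h i / (2 * Real.pi) : ℝ) : UnitAddCircle)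

/-- The `L^p` modulus of continuity, with lengths measured on `(ℝ/2πℤ)^d`. -/
noncomputable def modulus {d : ℕ} (p : ℝ≥0∞) (f : UnitAddTorus (Fin d) → ℂ) (δ : ℝ) : ℝ≥0∞ :=
  ⨆ (h : EuclideanSpace ℝ (Fin d)) (_ : ‖h‖ ≤ δ),
    eLpNorm (fun x => f (x + shift h) - f x) p (haarT d)

/-- The rectangular partial sum of the Fourier series over `|k_j| ≤ n_j`. -/
noncomputable def rectSum {d : ℕ} (f : UnitAddTorus (Fin d) → ℂ) (n : Fin d → ℕ)
    (x : UnitAddTorus (Fin d)) : ℂ :=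
  ∑ k ∈ Fintype.piFinset (fun j => Finset.Icc (-(n j : ℤ)) (n j)),
    UnitAddTorus.mFourierCoeff f k * UnitAddTorus.mFourier k x

end Pool.Agent.H377Z.Pring
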