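import Pool.Agent.H377Z.Pring.Coef
import Pool.Agent.H377Z.Pring.Defs

set_option autoImplicit false

namespace Pool.Agent.H377Z.Pring

open Real Finset Filter Topology MeasureTheory UnitAddTorus
open scoped ENNReal

noncomputable local instance : MeasureSpace UnitAddCircle := ⟨AddCircle.haarAddCircle⟩

local instance : Measure.IsAddHaarMeasure (volume : Measure UnitAddCircle) :=
  inferInstanceAs (Measure.IsAddHaarMeasure AddCircle.haarAddCircle)

local instance : IsProbabilityMeasure (volume : Measure UnitAddCircle) :=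
  inferInstanceAs (IsProbabilityMeasure AddCircle.haarAddCircle)

lemma haarT_eq (d : ℕ) : haarT d = (volume : Measure (UnitAddTorus (Fin d))) := rfl

lemma memlp_cc : Memℓp cc 2 := by
  rw [memℓp_gen_iff (by norm_num)]
  simpa using summable_cc

noncomputable def ff : Lp ℂ 2 (volume : Measure (UnitAddTorus (Fin 2))) :=
  mFourierBasis.repr.symm (⟨cc, memlp_cc⟩ : lp (fun _ : Fin 2 → ℤ => ℂ) 2)

lemma coeff_ff (k : Fin 2 → ℤ) : mFourierCoeff ff k = cc k := by
  rw [← mFourierBasis_repr, ff, LinearIsometryEquiv.apply_symm_apply]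

lemma mFourier_add_pt (k : Fin 2 → ℤ) (x y : UnitAddTorus (Fin 2)) :
    mFourier k (x + y) = mFourier k x * mFourier k y := by
  simp only [mFourier, ContinuousMap.coe_mk, Pi.add_apply, fourier_apply, zsmul_add,
    AddCircle.toCircle_add, Circle.coe_mul, Finset.prod_mul_distrib]

lemma mFourier_coe (k : Fin 2 → ℤ) (y : Fin 2 → ℝ) :
    mFourier k (fun i => ((y i : ℝ) : UnitAddCircle))
      = Complex.exp (((2 * π * (k 0 * y 0 + k 1 * y 1) : ℝ) : ℂ) * Complex.I) := by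
  simp only [mFourier, ContinuousMap.coe_mk, Fin.prod_univ_two, fourier_coe_apply]
  rw [← Complex.exp_add]
  congr 1
  push_cast
  ring

lemma integrable_mul {g : UnitAddTorus (Fin 2) → ℂ} (hg : MemLp g 2 volume) (k : Fin 2 → ℤ) :
    Integrable (fun t => mFourier k t • g t) volume := by
  have h1 : Integrable g volume := hg.integrable (by norm_num)
  refine h1.bdd_smul 1 (mFourier k).continuous.aestronglyMeasurable (ae_of_all _ fun t => ?_)
  exact ((mFourier k).norm_coe_le_norm t).trans mFourier_norm.le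

lemma memLp_shift (τ : UnitAddTorus (Fin 2)) : MemLp (fun x => ff (x + τ)) 2 volume :=
  (Lp.memLp ff).comp_measurePreserving (measurePreserving_add_right volume τ)

lemma coeff_shift (τ : UnitAddTorus (Fin 2)) (k : Fin 2 → ℤ) :
    mFourierCoeff (fun x => ff (x + τ) - ff x) k = (mFourier k τ - 1) * cc k := by
  have h1 : mFourierCoeff (fun x => ff (x + τ)) k = mFourier k τ * cc k := by
    rw [← coeff_ff]
    unfold mFourierCoeff
    rw [← integral_add_right_eq_self (fun t => mFourier (-k) t • ff t) τ, ← integral_const_mul]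
    refine integral_congr_ae (ae_of_all _ fun t => ?_)
    simp only [smul_eq_mul, mFourier_add_pt]
    have : mFourier k τ * mFourier (-k) τ = 1 := by
      rw [← mFourier_add, add_neg_cancel, mFourier_zero]; rfl
    linear_combination (-(mFourier (-k) t * ff (t + τ))) * this
  rw [sub_mul, one_mul, ← h1, ← coeff_ff]
  unfold mFourierCoeff
  rw [← integral_sub (integrable_mul (memLp_shift τ) _) (integrable_mul (Lp.memLp ff) _)]
  simp only [smul_sub]

lemma eLpNorm_shift_le (τ : UnitAddTorus (Fin 2)) {C : ℝ}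
    (h : ∀ T : Finset (Fin 2 → ℤ), ∑ k ∈ T, ‖mFourier k τ - 1‖ ^ 2 * ‖cc k‖ ^ 2 ≤ C) :
    eLpNorm (fun x => ff (x + τ) - ff x) 2 volume ≤ ENNReal.ofReal √C := by
  have hm : MemLp (fun x => ff (x + τ) - ff x) 2 volume := (memLp_shift τ).sub (Lp.memLp ff)
  have h1 := hasSum_sq_mFourierCoeff (hm.toLp _)
  have h2 : ∀ k, mFourierCoeff (hm.toLp _) k = (mFourier k τ - 1) * cc k := by
    intro k
    rw [← coeff_shift]
    unfold mFourierCoeff
    refine integral_congr_ae ?_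
    filter_upwards [hm.coeFn_toLp] with t ht
    rw [ht]
  simp only [h2, norm_mul, mul_pow] at h1
  have h3 : ∫ t, ‖(hm.toLp _) t‖ ^ 2 ≤ C := hasSum_le_of_sum_le h1 h
  have h4 : ‖hm.toLp _‖ ^ 2 = ∫ t, ‖(hm.toLp _) t‖ ^ 2 := by
    rw [← inner_self_eq_norm_sq (𝕜 := ℂ), L2.inner_def, ← integral_re (L2.integrable_inner _ _)]
    simp only [inner_self_eq_norm_sq]
  have h5 : ‖hm.toLp _‖ ≤ √C := Real.le_sqrt_of_sq_le (h4 ▸ h3)
  rw [Lp.norm_toLp] at h5
  rw [← ENNReal.ofReal_toReal hm.eLpNorm_ne_top]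
  exact ENNReal.ofReal_le_ofReal h5

lemma modulus_le {δ : ℝ} (hδ : 0 < δ) {J : ℕ} (hJ : (MM (J + 1) : ℝ) * δ ≤ 1) :
    modulus 2 ff δ ≤ ENNReal.ofReal √(32768 * δ + 2048 / √(J + 6) * (1 / 4) ^ J) := by
  refine iSup₂_le fun h hh => ?_
  rw [haarT_eq]
  refine eLpNorm_shift_le _ (weighted_le hδ hJ _ (fun k => ?_) (fun k => ?_))
  · have h1 : ‖mFourier k (shift h) - 1‖ ≤ 2 := by
      refine (norm_sub_le _ _).trans ?_
      have := ((mFourier k).norm_coe_le_norm (shift h)).trans mFourier_norm.le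
      rw [norm_one]; linarith
    nlinarith [norm_nonneg (mFourier k (shift h) - 1)]
  · refine pow_le_pow_left₀ (norm_nonneg _) ?_ 2
    have e : mFourier k (shift h) = Complex.exp (Complex.I * ((k 0 * h 0 + k 1 * h 1 : ℝ) : ℂ)) := by
      unfold shift
      rw [mFourier_coe k (fun i => h i / (2 * π)), mul_comm]
      congr 3
      field_simp
    rw [e]
    refine Real.norm_exp_I_mul_ofReal_sub_one_le.trans ?_
    have h0 : |h 0| ≤ δ := (EuclideanSpace.norm_eq h ▸ (PiLp.norm_apply_le h 0)).trans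
      (EuclideanSpace.norm_eq h ▸ hh)
    have h1 : |h 1| ≤ δ := (EuclideanSpace.norm_eq h ▸ (PiLp.norm_apply_le h 1)).trans
      (EuclideanSpace.norm_eq h ▸ hh)
    rw [Real.norm_eq_abs, add_mul]
    refine (abs_add_le _ _).trans ?_
    rw [abs_mul, abs_mul]
    gcongr

lemma exists_J {δ : ℝ} (hδ : 0 < δ) {J0 : ℕ} (h : (MM (J0 + 1) : ℝ) * δ ≤ 1) :
    ∃ J, J0 ≤ J ∧ (MM (J + 1) : ℝ) * δ ≤ 1 ∧ 1 < (MM (J + 2) : ℝ) * δ := by
  classical
  have hex : ∃ n, 1 < (MM (J0 + n + 2) : ℝ) * δ := by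
    obtain ⟨n, hn⟩ := exists_nat_gt (1 / δ)
    refine ⟨n, ?_⟩
    have h1 : (n : ℝ) ≤ MM (J0 + n + 2) := by
      exact_mod_cast (le_trans (by omega) (le_MM (J0 + n + 2)))
    rw [div_lt_iff₀ hδ] at hn
    nlinarith
  refine ⟨J0 + Nat.find hex, by omega, ?_, Nat.find_spec hex⟩
  rcases Nat.eq_zero_or_pos (Nat.find hex) with h0 | h0
  · rw [h0]; exact h
  · have := Nat.find_min hex (show Nat.find hex - 1 < Nat.find hex by omega)
    have e : J0 + (Nat.find hex - 1) + 2 = J0 + Nat.find hex + 1 := by omega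
    rw [e] at this
    exact not_lt.1 this

lemma factor_le {δ : ℝ} (hδ : 0 < δ) (hδ1 : δ ≤ 1) {J : ℕ} (h : 1 < (MM (J + 2) : ℝ) * δ) :
    log (1 / δ) * log (log (log (exp (exp (exp 1)) / δ))) ≤ 32 * 2 ^ J * log (J + 6) := by
  have hl2 : log 2 ≤ 1 := by linarith [log_two_lt_d9]
  have h0 : 0 ≤ log (1 / δ) := log_nonneg (by rw [le_div_iff₀ hδ]; linarith)
  have h1 : log (1 / δ) ≤ 32 * 2 ^ J := by
    have h2 : 1 / δ ≤ (2 : ℝ) ^ 2 ^ (J + 5) := by
      rw [div_le_iff₀ hδ]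
      have : (MM (J + 2) : ℝ) = 2 ^ 2 ^ (J + 5) := by unfold MM; push_cast; rfl
      rw [← this]; exact h.le
    refine (log_le_log (by positivity) h2).trans ?_
    rw [log_pow]
    push_cast
    have : (2 : ℝ) ^ (J + 5) = 32 * 2 ^ J := by ring
    rw [this]
    exact mul_le_of_le_one_right (by positivity) hl2
  have he : exp 1 ≤ 3 := by linarith [exp_one_lt_d9]
  have he1 : 1 ≤ exp 1 := one_le_exp (by norm_num)
  have hee : exp (exp 1) ≤ 27 := by
    calc exp (exp 1) ≤ exp (3 : ℕ) := exp_le_exp.2 (by exact_mod_cast he)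
      _ = exp 1 ^ 3 := by rw [← exp_nat_mul]; simp
      _ ≤ 3 ^ 3 := by gcongr
      _ = 27 := by norm_num
  have h2J : (1 : ℝ) ≤ 2 ^ J := one_le_pow₀ (by norm_num)
  have h3 : log (exp (exp (exp 1)) / δ) = exp (exp 1) + log (1 / δ) := by
    rw [div_eq_mul_one_div, log_mul (by positivity) (by positivity), log_exp]
  have h4 : log (log (exp (exp (exp 1)) / δ)) ≤ J + 6 := by
    rw [h3]
    have h5 : exp (exp 1) + log (1 / δ) ≤ 2 ^ (J + 6) := by
      have : (2 : ℝ) ^ (J + 6) = 64 * 2 ^ J := by ring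
      linarith
    refine (log_le_log (by positivity) h5).trans ?_
    rw [log_pow]
    push_cast
    exact mul_le_of_le_one_right (by positivity) hl2
  have h5 : 1 ≤ log (log (exp (exp (exp 1)) / δ)) := by
    rw [h3]
    calc 1 ≤ exp 1 := he1
      _ = log (exp (exp 1)) := (log_exp _).symm
      _ ≤ _ := log_le_log (by positivity) (by linarith)
  exact mul_le_mul h1 (log_le_log (by linarith) h4) (log_nonneg h5) (by positivity)

lemma delta_small {δ : ℝ} (hδ : 0 < δ) {J : ℕ} (hJ : (MM (J + 1) : ℝ) * δ ≤ 1) :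
    δ ≤ 1 / √(J + 6) * (1 / 4) ^ J := by
  have h1 : (J + 6) * 4 ^ J ≤ MM (J + 1) := by
    unfold MM
    have h2 : J + 6 < 2 ^ (J + 6) := Nat.lt_two_pow_self
    have h3 : J < 2 ^ J := Nat.lt_two_pow_self
    have h4 : J + 6 + 2 * J ≤ 2 ^ (J + 1 + 3) := by rw [add_assoc J 1 3, pow_add]; omega
    calc (J + 6) * 4 ^ J ≤ 2 ^ (J + 6) * 4 ^ J := by gcongr
      _ = 2 ^ (J + 6 + 2 * J) := by rw [pow_add _ (J + 6), pow_mul]; norm_num
      _ ≤ _ := Nat.pow_le_pow_right (by norm_num) h4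
  have h2 : ((J : ℝ) + 6) * 4 ^ J ≤ MM (J + 1) := by exact_mod_cast h1
  have h3 : √((J : ℝ) + 6) ≤ J + 6 := by
    rw [Real.sqrt_le_left (by positivity)]
    have : (0 : ℝ) ≤ J := Nat.cast_nonneg _
    nlinarith
  have hsq : 0 < √((J : ℝ) + 6) := Real.sqrt_pos.2 (by positivity)
  rw [one_div_pow, div_mul_div_comm, one_mul, le_div_iff₀ (by positivity)]
  calc δ * (√(J + 6) * 4 ^ J) ≤ δ * ((J + 6) * 4 ^ J) := by gcongr
    _ ≤ δ * MM (J + 1) := by gcongr
    _ ≤ 1 := by linarith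

lemma tendsto_aux : Tendsto (fun J : ℕ => √(34816 * 1024 * (log (J + 6) ^ 2 / √(J + 6))))
    atTop (𝓝 0) := by
  have h1 : Tendsto (fun J : ℕ => √((J : ℝ) + 6)) atTop atTop :=
    Real.tendsto_sqrt_atTop.comp (tendsto_atTop_add_const_right _ _ tendsto_natCast_atTop_atTop)
  have h2 := ((Real.tendsto_pow_log_div_mul_add_atTop 1 0 2 one_ne_zero).comp h1).const_mul
    (34816 * 1024 * 4)
  have h3 := h2.sqrt
  simp only [mul_zero, sqrt_zero] at h3
  refine h3.congr fun J => ?_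
  congr 1
  simp only [Function.comp]
  rw [Real.log_sqrt (by positivity)]
  ring

theorem modulus_tendsto : Tendsto (fun δ : ℝ => modulus 2 ff δ *
    ENNReal.ofReal (log (1 / δ) * log (log (log (exp (exp (exp 1)) / δ))))) (𝓝[>] 0) (𝓝 0) := by
  rw [ENNReal.tendsto_nhds_zero]
  intro ε hε
  have h1 := ENNReal.tendsto_ofReal tendsto_aux
  rw [ENNReal.ofReal_zero, ENNReal.tendsto_nhds_zero] at h1
  obtain ⟨J0, hJ0⟩ := (h1 ε hε).exists_forall_of_atTop
  have hM : (0 : ℝ) < MM (J0 + 1) := by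
    have := two_le_MM (J0 + 1)
    exact_mod_cast (by omega : 0 < MM (J0 + 1))
  have hM1 : (1 : ℝ) ≤ MM (J0 + 1) := by
    have := two_le_MM (J0 + 1)
    exact_mod_cast (by omega : 1 ≤ MM (J0 + 1))
  filter_upwards [Ioo_mem_nhdsGT (show (0 : ℝ) < 1 / MM (J0 + 1) by positivity)] with δ hδ
  obtain ⟨hδ0, hδ1⟩ := hδ
  rw [lt_div_iff₀ hM] at hδ1
  obtain ⟨J, hJ1, hJ2, hJ3⟩ := exists_J hδ0 (J0 := J0) (by linarith)
  refine le_trans ?_ (hJ0 J hJ1)
  have hδ2 : δ ≤ 1 := by nlinarith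
  refine (mul_le_mul' (modulus_le hδ0 hJ2)
    (ENNReal.ofReal_le_ofReal (factor_le hδ0 hδ2 hJ3))).trans ?_
  rw [← ENNReal.ofReal_mul (sqrt_nonneg _)]
  refine ENNReal.ofReal_le_ofReal (Real.le_sqrt_of_sq_le ?_)
  have hsq : 0 < √((J : ℝ) + 6) := Real.sqrt_pos.2 (by positivity)
  rw [mul_pow, Real.sq_sqrt (by positivity)]
  have h2 := delta_small hδ0 hJ2
  have h3 : 32768 * δ + 2048 / √(J + 6) * (1 / 4) ^ J ≤ 34816 / √(J + 6) * (1 / 4) ^ J := by
    have e : 34816 / √(J + 6) * ((1 : ℝ) / 4) ^ J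
      = 32768 * (1 / √(J + 6) * (1 / 4) ^ J) + 2048 / √(J + 6) * (1 / 4) ^ J := by ring
    rw [e]; linarith
  refine (mul_le_mul_of_nonneg_right h3 (sq_nonneg _)).trans (le_of_eq ?_)
  have e : ((1 : ℝ) / 4) ^ J = 1 / (2 ^ J) ^ 2 := by
    rw [one_div_pow, ← pow_mul, mul_comm J 2, pow_mul]; norm_num
  rw [e]
  field_simp
  ring

/-! ### divergence -/

lemma sum_Icc_neg (G : ℤ → ℂ) (hG : ∀ m, m < 0 → G m = 0) (p : ℕ) :
    ∑ m ∈ Icc (-(p : ℤ)) p, G m = ∑ m ∈ range (p + 1), G m := by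
  have : ∑ m ∈ range (p + 1), G m = ∑ m ∈ (range (p + 1)).map Nat.castEmbedding, G m := by
    rw [Finset.sum_map]; rfl
  rw [this]
  symm
  refine Finset.sum_subset ?_ ?_
  · intro m hm
    obtain ⟨a, ha, rfl⟩ := Finset.mem_map.1 hm
    have := mem_range.1 ha
    simp only [Nat.castEmbedding_apply, mem_Icc]
    omega
  · intro m hm hm'
    apply hG
    by_contra hc
    apply hm'
    have := (mem_Icc.1 hm).2
    exact Finset.mem_map.2 ⟨m.toNat, mem_range.2 (by omega), by simp; omega⟩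

noncomputable def term (x : UnitAddTorus (Fin 2)) (m n : ℤ) : ℂ := cc ![m, n] * mFourier ![m, n] x

lemma rectSum_eq (x : UnitAddTorus (Fin 2)) (p q : ℕ) :
    rectSum ff ![p, q] x = ∑ m ∈ range (p + 1), ∑ n ∈ range (q + 1), term x m n := by
  have h1 : rectSum ff ![p, q] x = ∑ m ∈ Icc (-(p : ℤ)) p, ∑ n ∈ Icc (-(q : ℤ)) q, term x m n := by
    rw [← Finset.sum_product' (f := fun m n => term x m n)]
    unfold rectSum
    refine Finset.sum_equiv (finTwoArrowEquiv ℤ) ?_ ?_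
    · intro k
      simp [Fin.forall_fin_two]
    · intro k _
      have : k = ![k 0, k 1] := by ext i; fin_cases i <;> rfl
      rw [coeff_ff]
      conv_lhs => rw [this]
      rfl
  rw [h1, sum_Icc_neg]
  · refine Finset.sum_congr rfl fun m _ => sum_Icc_neg _ (fun n hn => ?_) q
    rw [term, cc_neg (i := 1) (by simpa using hn), zero_mul]
  · intro m hm
    refine Finset.sum_eq_zero fun n _ => ?_
    rw [term, cc_neg (i := 0) (by simpa using hm), zero_mul]

lemma mixed (x : UnitAddTorus (Fin 2)) (p q A B : ℕ) :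
    rectSum ff ![p + A, q + B] x - rectSum ff ![p, q + B] x - rectSum ff ![p + A, q] x
      + rectSum ff ![p, q] x
      = ∑ a ∈ range A, ∑ b ∈ range B, term x (p + 1 + a : ℕ) (q + 1 + b : ℕ) := by
  simp only [rectSum_eq]
  rw [add_right_comm p A 1, add_right_comm q B 1]
  simp only [Finset.sum_range_add, Finset.sum_add_distrib]
  ring

theorem big_block (x : UnitAddTorus (Fin 2)) (n0 : ℕ) : ∃ p q A B : ℕ, n0 ≤ p ∧ n0 ≤ q ∧
    1 ≤ ‖∑ a ∈ range A, ∑ b ∈ range B, term x (p + 1 + a : ℕ) (q + 1 + b : ℕ)‖ := by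
  have hy : ∀ i, ∃ y : ℝ, 0 ≤ y ∧ y < 1 ∧ (y : UnitAddCircle) = x i := by
    intro i
    obtain ⟨y, hy⟩ := QuotientAddGroup.mk_surjective (x i)
    exact ⟨Int.fract y, Int.fract_nonneg y, Int.fract_lt_one y, by rw [AddCircle.coe_fract, hy]⟩
  choose y hy0 hy1 hyx using hy
  have hx : x = fun i => ((y i : ℝ) : UnitAddCircle) := funext fun i => (hyx i).symm
  set g := n0 + 1 with hg
  have hg0 : (0 : ℝ) < g := by positivity
  set a0 := ⌊2 * g * y 0⌋₊ with ha0
  set b0 := ⌊2 * g * y 1⌋₊ with hb0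
  set j := Nat.pair g (Nat.pair a0 b0) with hj
  have e1 : gI j = g := by simp [gI, hj]
  have e2 : aI j = a0 := by simp [aI, hj]
  have e3 : bI j = b0 := by simp [bI, hj]
  have hfl : ∀ i, ⌊2 * g * y i⌋₊ < 2 * g := fun i => by
    rw [Nat.floor_lt (by have := hy0 i; positivity)]
    push_cast
    nlinarith [hy1 i]
  have hact : Act j := by unfold Act; rw [e1, e2, e3]; exact ⟨hfl 0, hfl 1⟩
  have hr : 4 ≤ rr j := by unfold rr; rw [pow_add]; have := Nat.one_le_two_pow (n := j); omega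
  set K := 8 * g * 2 ^ rr j with hK
  have hN : NN j = 4 * K := by unfold NN; rw [e1, hK]; ring
  have hK1 : 1 ≤ K := by rw [hK]; exact Nat.one_le_iff_ne_zero.2 (by positivity)
  have hLK : LL j = 4 * g * K := by unfold LL; rw [e1, hK]; push_cast; ring
  have hL0 : 0 < LL j := by rw [hLK]; positivity
  have hloc : ∀ i, 0 ≤ LL j * (y i - ⌊2 * g * y i⌋₊ / (2 * g)) ∧
      LL j * (y i - ⌊2 * g * y i⌋₊ / (2 * g)) < 2 * K := by
    intro i
    have h1 := Nat.floor_le (a := 2 * g * y i) (by have := hy0 i; positivity)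
    have h2 := Nat.lt_floor_add_one (2 * g * y i)
    have e : LL j * (y i - ⌊2 * g * y i⌋₊ / (2 * g)) = 2 * K * (2 * g * y i - ⌊2 * g * y i⌋₊) := by
      rw [hLK]; field_simp; ring
    have hK0 : (0 : ℝ) < K := by exact_mod_cast hK1
    rw [e]
    constructor
    · exact mul_nonneg (by positivity) (by linarith)
    · nlinarith
  set s := LL j * (y 0 - a0 / (2 * g)) with hs
  set t := LL j * (y 1 - b0 / (2 * g)) with ht
  obtain ⟨s0, s1⟩ : 0 ≤ s ∧ s < 2 * K := hloc 0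
  obtain ⟨t0, t1⟩ : 0 ≤ t ∧ t < 2 * K := hloc 1
  have hts : ⌊t⌋₊ < 2 * K := by rw [Nat.floor_lt t0]; exact_mod_cast t1
  have hss : ⌊s⌋₊ < 2 * K := by rw [Nat.floor_lt s0]; exact_mod_cast s1
  set θ := (⌊t⌋₊ : ℝ) + 1 - t with hθ
  set φ := (⌊s⌋₊ : ℝ) + 1 - s with hφ
  obtain ⟨B, hB1, hB2⟩ := chirp (g := g) (r := rr j) (by omega) hr (θ := θ) (φ := φ)
    (by linarith [Nat.lt_floor_add_one t]) (by linarith [Nat.floor_le t0])
    (by linarith [Nat.lt_floor_add_one s]) (by linarith [Nat.floor_le s0])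
  have hLL : (g * (32 * g * 2 ^ rr j) : ℝ) = LL j := by unfold LL; rw [e1]
  rw [hLL, ← hK] at hB2
  rw [← hK] at hB1
  have hjM : n0 ≤ MM j := by
    have h1 := le_MM j
    have h2 := gI_le j
    omega
  refine ⟨MM j + ⌊t⌋₊, MM j + ⌊s⌋₊, K, B, by omega, by omega, ?_⟩
  set Φ : ℝ := 2 * π * (MM j * (y 0 + y 1) + t * s / LL j) with hΦ
  have hterm : ∀ a ∈ range K, ∀ b ∈ range B,
      term x (MM j + ⌊t⌋₊ + 1 + a : ℕ) (MM j + ⌊s⌋₊ + 1 + b : ℕ)
      = (amp j * Complex.exp (Φ * Complex.I)) *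
        Complex.exp (((-(2 * π * ((θ + a) * (φ + b) / LL j)) : ℝ) : ℂ) * Complex.I) := by
    intro a ha b hb
    have ha' := mem_range.1 ha
    have hb' := mem_range.1 hb
    have hmem : (![(MM j + ⌊t⌋₊ + 1 + a : ℕ), (MM j + ⌊s⌋₊ + 1 + b : ℕ)] : Fin 2 → ℤ) ∈ blk j := by
      rw [mem_blk, Fin.forall_fin_two]
      simp only [Matrix.cons_val_zero, Matrix.cons_val_one]
      omega
    rw [term, cc_eq hmem, coef, hx, mFourier_coe, mul_assoc (amp j : ℂ), mul_assoc (amp j : ℂ),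
      ← Complex.exp_add, ← Complex.exp_add]
    congr 2
    simp only [Matrix.cons_val_zero, Matrix.cons_val_one]
    have key : 2 * π * phase j (((MM j + ⌊t⌋₊ + 1 + a : ℕ) : ℤ) - MM j)
          (((MM j + ⌊s⌋₊ + 1 + b : ℕ) : ℤ) - MM j)
        + 2 * π * (((MM j + ⌊t⌋₊ + 1 + a : ℕ) : ℤ) * y 0 + ((MM j + ⌊s⌋₊ + 1 + b : ℕ) : ℤ) * y 1)
        = Φ + -(2 * π * ((θ + a) * (φ + b) / LL j)) := by
      unfold phase
      rw [e1, e2, e3, hΦ, hθ, hφ]
      have h0 : y 0 = s / LL j + a0 / (2 * g) := by rw [hs]; field_simp; ring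
      have h1 : y 1 = t / LL j + b0 / (2 * g) := by rw [ht]; field_simp; ring
      rw [h0, h1]
      push_cast
      field_simp
      ring
    have key' := congrArg (fun r : ℝ => (r : ℂ) * Complex.I) key
    push_cast at key' ⊢
    linear_combination key'
  rw [Finset.sum_congr rfl fun a ha => Finset.sum_congr rfl fun b hb => hterm a ha b hb]
  simp only [← Finset.mul_sum]
  rw [norm_mul, norm_mul, Complex.norm_exp_ofReal_mul_I, mul_one, Complex.norm_real,
    Real.norm_of_nonneg (amp_nonneg j), amp, if_pos hact]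
  have him : LL j * rr j / 64 ≤ ‖∑ a ∈ range K, ∑ b ∈ range B,
      Complex.exp (((-(2 * π * ((θ + a) * (φ + b) / LL j)) : ℝ) : ℂ) * Complex.I)‖ := by
    refine le_trans ?_ (Complex.abs_im_le_norm _)
    simp only [Complex.im_sum, Complex.exp_ofReal_mul_I_im, sin_neg, Finset.sum_neg_distrib,
      abs_neg]
    exact hB2.trans (le_abs_self _)
  have hr0 : (0 : ℝ) < rr j := by exact_mod_cast (by omega : 0 < rr j)
  calc (1 : ℝ) = 64 / (LL j * rr j) * (LL j * rr j / 64) := by field_simp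
    _ ≤ _ := by gcongr

theorem diverges (x : UnitAddTorus (Fin 2)) :
    ¬ ∃ s : ℂ, Tendsto (fun n : Fin 2 → ℕ => rectSum ff n x) atTop (𝓝 s) := by
  rintro ⟨s, hs⟩
  obtain ⟨n0, hn0⟩ := (Metric.tendsto_atTop.1 hs) (1 / 4) (by norm_num)
  obtain ⟨p, q, A, B, hp, hq, h⟩ := big_block x (n0 0 + n0 1)
  rw [← mixed] at h
  have key : ∀ u v, p ≤ u → q ≤ v → ‖rectSum ff ![u, v] x - s‖ < 1 / 4 := by
    intro u v hu hv
    rw [← dist_eq_norm]
    apply hn0
    intro i
    fin_cases i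
    · simp; omega
    · simp; omega
  have h1 := key (p + A) (q + B) (by omega) (by omega)
  have h2 := key p (q + B) (by omega) (by omega)
  have h3 := key (p + A) q (by omega) (by omega)
  have h4 := key p q (by omega) (by omega)
  have e : rectSum ff ![p + A, q + B] x - rectSum ff ![p, q + B] x - rectSum ff ![p + A, q] x
      + rectSum ff ![p, q] x = (rectSum ff ![p + A, q + B] x - s) - (rectSum ff ![p, q + B] x - s)
      - (rectSum ff ![p + A, q] x - s) + (rectSum ff ![p, q] x - s) := by ring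
  rw [e] at h
  have h5 := norm_add_le ((rectSum ff ![p + A, q + B] x - s) - (rectSum ff ![p, q + B] x - s)
      - (rectSum ff ![p + A, q] x - s)) (rectSum ff ![p, q] x - s)
  have h6 := norm_sub_le ((rectSum ff ![p + A, q + B] x - s) - (rectSum ff ![p, q + B] x - s))
      (rectSum ff ![p + A, q] x - s)
  have h7 := norm_sub_le (rectSum ff ![p + A, q + B] x - s) (rectSum ff ![p, q + B] x - s)
  linarith

theorem memLp_ff : MemLp (ff : UnitAddTorus (Fin 2) → ℂ) 2 (haarT 2) := Lp.memLp ff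

end Pool.Agent.H377Z.Pring
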