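import Mathlib

set_option autoImplicit false

namespace Pool.Agent.H377Z.Pring

open Real Finset

lemma sum_sin (ω φ : ℝ) (B : ℕ) :
    2 * sin (ω / 2) * ∑ b ∈ range B, sin (ω * (φ + b))
      = cos (ω * (φ - 1 / 2)) - cos (ω * (φ + B - 1 / 2)) := by
  induction B with
  | zero => simp
  | succ B ih =>
    rw [Finset.sum_range_succ, mul_add, ih]
    have e1 : ω * (φ + B - 1 / 2) = ω * (φ + B) - ω / 2 := by ring
    have e2 : ω * (φ + (B + 1 : ℕ) - 1 / 2) = ω * (φ + B) + ω / 2 := by push_cast; ring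
    rw [e1, e2, cos_sub (ω * (φ + B)), cos_add (ω * (φ + B))]
    ring

lemma sum_cos (ω φ : ℝ) (K : ℕ) :
    2 * sin (ω / 2) * ∑ B ∈ range K, cos (ω * (φ + B - 1 / 2))
      = sin (ω * (φ + K - 1)) - sin (ω * (φ - 1)) := by
  induction K with
  | zero => simp
  | succ K ih =>
    rw [Finset.sum_range_succ, mul_add, ih]
    have e1 : ω * (φ + K - 1) = ω * (φ + K - 1 / 2) - ω / 2 := by ring
    have e2 : ω * (φ + (K + 1 : ℕ) - 1) = ω * (φ + K - 1 / 2) + ω / 2 := by push_cast; ring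
    rw [e1, e2, sin_sub (ω * (φ + K - 1 / 2)), sin_add (ω * (φ + K - 1 / 2))]
    ring

noncomputable def U (ω φ : ℝ) (K : ℕ) : ℝ := ∑ B ∈ range K, ∑ b ∈ range B, sin (ω * (φ + b))

lemma U_eq (ω φ : ℝ) (K : ℕ) : 2 * sin (ω / 2) * U ω φ K
    = K * cos (ω * (φ - 1 / 2)) - ∑ B ∈ range K, cos (ω * (φ + B - 1 / 2)) := by
  unfold U
  rw [Finset.mul_sum]
  simp only [sum_sin, Finset.sum_sub_distrib, Finset.sum_const, card_range, nsmul_eq_mul]

lemma cos_lb {ω φ : ℝ} (h0 : 0 < φ) (h1 : φ ≤ 1) : 1 - ω ^ 2 / 8 ≤ cos (ω * (φ - 1 / 2)) := by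
  have h := one_sub_sq_div_two_le_cos (x := ω * (φ - 1 / 2))
  have h2 : (φ - 1 / 2) ^ 2 ≤ 1 / 4 := by nlinarith
  have h3 : (ω * (φ - 1 / 2)) ^ 2 ≤ ω ^ 2 / 4 := by
    rw [mul_pow]; nlinarith [sq_nonneg ω]
  linarith

lemma sin_lb {ω : ℝ} (h0 : 0 < ω) (h1 : ω ≤ π / 2) : ω / π ≤ sin (ω / 2) := by
  have := mul_le_sin (x := ω / 2) (by linarith) (by linarith [pi_pos])
  calc ω / π = 2 / π * (ω / 2) := by field_simp
    _ ≤ _ := this

lemma U_lb1 {ω φ : ℝ} (h0 : 0 < ω) (h1 : ω ≤ π / 2) (p0 : 0 < φ) (p1 : φ ≤ 1) (K : ℕ) :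
    -(K : ℝ) ≤ U ω φ K := by
  have hs := sin_lb h0 h1
  have hpi := pi_pos
  have hpi2 := pi_lt_d2
  have hs0 : 0 < sin (ω / 2) := lt_of_lt_of_le (by positivity) hs
  have h2 : ∑ B ∈ range K, cos (ω * (φ + B - 1 / 2)) ≤ K := by
    calc _ ≤ ∑ B ∈ range K, (1 : ℝ) := Finset.sum_le_sum fun B _ => cos_le_one _
      _ = K := by simp
  have h3 := U_eq ω φ K
  have h4 := cos_lb (ω := ω) p0 p1
  have hK : (0 : ℝ) ≤ K := Nat.cast_nonneg _
  have h5 : ω ^ 2 / 8 ≤ 2 * sin (ω / 2) := by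
    have : ω ^ 2 / 8 ≤ 2 * (ω / π) := by
      rw [← mul_div_assoc, div_le_div_iff₀ (by norm_num) hpi]
      nlinarith
    linarith
  have h6 : 0 ≤ 2 * sin (ω / 2) * (U ω φ K + K) := by
    rw [mul_add, h3]
    nlinarith [mul_le_mul_of_nonneg_left h4 hK, mul_le_mul_of_nonneg_left h5 hK]
  have := nonneg_of_mul_nonneg_right h6 (by linarith)
  linarith

lemma U_lb2 {ω φ : ℝ} (h0 : 0 < ω) (h1 : ω ≤ π / 2) (p0 : 0 < φ) (p1 : φ ≤ 1) (K : ℕ)
    (hK : 4 ≤ K * (ω / π)) : 0.43 * K ≤ ω * U ω φ K := by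
  have hs := sin_lb h0 h1
  have hpi := pi_pos
  have hpi2 := pi_lt_d2
  have hs0 : 0 < sin (ω / 2) := lt_of_lt_of_le (by positivity) hs
  have hs1 : sin (ω / 2) ≤ ω / 2 := sin_le (by linarith)
  have hK0 : (0 : ℝ) ≤ K := Nat.cast_nonneg _
  have hKs : 4 ≤ K * sin (ω / 2) := hK.trans (mul_le_mul_of_nonneg_left hs hK0)
  have h3 := U_eq ω φ K
  have h4 := cos_lb (ω := ω) p0 p1
  have h5 := sum_cos ω φ K
  set C := ∑ B ∈ range K, cos (ω * (φ + B - 1 / 2))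
  have h6 : 2 * sin (ω / 2) * C ≤ 2 := by
    rw [h5]; linarith [sin_le_one (ω * (φ + K - 1)), neg_one_le_sin (ω * (φ - 1))]
  have h7 : C ≤ K / 4 := by
    by_contra hc
    push Not at hc
    nlinarith
  have h8 : ω ^ 2 / 8 ≤ 0.32 := by nlinarith
  have h9 : 0.43 * K ≤ 2 * sin (ω / 2) * U ω φ K := by
    rw [h3]; nlinarith [mul_le_mul_of_nonneg_left h4 hK0]
  have h10 : 0 ≤ U ω φ K :=
    nonneg_of_mul_nonneg_right (le_trans (by positivity) h9) (by linarith)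
  nlinarith

lemma harm {a0 : ℕ} (h : 1 ≤ a0) (r : ℕ) :
    (r : ℝ) / 2 ≤ ∑ a ∈ Ico a0 (a0 * 2 ^ r), 1 / ((a : ℝ) + 1) := by
  induction r with
  | zero => simp
  | succ r ih =>
    have h1 : a0 ≤ a0 * 2 ^ r := Nat.le_mul_of_pos_right _ (by positivity)
    have h2 : a0 * 2 ^ (r + 1) = a0 * 2 ^ r + a0 * 2 ^ r := by ring
    rw [← Finset.sum_Ico_consecutive _ h1 (show a0 * 2 ^ r ≤ a0 * 2 ^ (r + 1) by omega)]
    have h3 : (1 : ℝ) / 2 ≤ ∑ a ∈ Ico (a0 * 2 ^ r) (a0 * 2 ^ (r + 1)), 1 / ((a : ℝ) + 1) := by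
      set m := a0 * 2 ^ r with hm
      have hm0 : (0 : ℝ) < m := by exact_mod_cast (show 0 < m by omega)
      calc (1 : ℝ) / 2 = ∑ a ∈ Ico m (a0 * 2 ^ (r + 1)), 1 / (2 * (m : ℝ)) := by
            rw [Finset.sum_const, Nat.card_Ico, h2, Nat.add_sub_cancel, nsmul_eq_mul]
            field_simp
        _ ≤ _ := by
            refine Finset.sum_le_sum fun a ha => ?_
            have h4 : a + 1 ≤ 2 * m := by have := (mem_Ico.1 ha).2; omega
            have h5 : (a : ℝ) + 1 ≤ 2 * m := by exact_mod_cast h4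
            exact one_div_le_one_div_of_le (by positivity) h5
    push_cast
    linarith

/-- the key lower bound for the discrete chirp -/
theorem chirp {g r : ℕ} (hg : 1 ≤ g) (hr : 4 ≤ r) {θ φ : ℝ} (t0 : 0 < θ) (t1 : θ ≤ 1)
    (p0 : 0 < φ) (p1 : φ ≤ 1) :
    ∃ B < 8 * g * 2 ^ r, (g * (32 * g * 2 ^ r) : ℝ) * r / 64 ≤
      ∑ a ∈ range (8 * g * 2 ^ r), ∑ b ∈ range B,
        sin (2 * π * ((θ + a) * (φ + b) / (g * (32 * g * 2 ^ r)))) := by
  set K := 8 * g * 2 ^ r with hK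
  set L : ℝ := g * (32 * g * 2 ^ r) with hL
  have hpi := pi_pos
  have hpi2 := pi_lt_d2
  have hg' : (1 : ℝ) ≤ g := by exact_mod_cast hg
  have hKr : (K : ℝ) = 8 * g * 2 ^ r := by rw [hK]; push_cast; ring
  have hK0 : (0 : ℝ) < K := by rw [hKr]; positivity
  have hLK : L = 4 * g * K := by rw [hL, hKr]; ring
  have hL0 : 0 < L := by rw [hLK]; positivity
  have h8 : 8 * g ≤ K := Nat.le_mul_of_pos_right _ (by positivity)
  let ω : ℕ → ℝ := fun a => 2 * π * (θ + a) / L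
  have hω0 : ∀ a, 0 < ω a := fun a => by simp only [ω]; positivity
  have hω1 : ∀ a < K, ω a ≤ π / 2 := by
    intro a ha
    have : (a : ℝ) + 1 ≤ K := by exact_mod_cast ha
    simp only [ω]
    rw [div_le_iff₀ hL0, hLK]
    have h1 : θ + a ≤ g * K := by nlinarith
    nlinarith
  have hsum : (K : ℝ) * (L * r / 64) ≤ ∑ a ∈ range K, U (ω a) φ K := by
    rw [← Finset.sum_range_add_sum_Ico _ h8]
    have h1 : -((8 * g : ℕ) * (K : ℝ)) ≤ ∑ a ∈ range (8 * g), U (ω a) φ K := by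
      calc -((8 * g : ℕ) * (K : ℝ)) = ∑ a ∈ range (8 * g), (-(K : ℝ)) := by simp
        _ ≤ _ := Finset.sum_le_sum fun a ha =>
          U_lb1 (hω0 a) (hω1 a (lt_of_lt_of_le (mem_range.1 ha) h8)) p0 p1 K
    have h2 : K * L / 16 * ∑ a ∈ Ico (8 * g) K, 1 / ((a : ℝ) + 1)
        ≤ ∑ a ∈ Ico (8 * g) K, U (ω a) φ K := by
      rw [Finset.mul_sum]
      refine Finset.sum_le_sum fun a ha => ?_
      obtain ⟨ha1, ha2⟩ := mem_Ico.1 ha
      have ha3 : (8 * g : ℝ) ≤ a := by exact_mod_cast ha1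
      have h3 : 4 ≤ K * (ω a / π) := by
        have e : K * (ω a / π) = (θ + a) / (2 * g) := by
          simp only [ω]; rw [hLK]; field_simp; ring
        rw [e, le_div_iff₀ (by positivity)]
        linarith
      have h4 := U_lb2 (hω0 a) (hω1 a ha2) p0 p1 K h3
      have h5 : 0 ≤ U (ω a) φ K :=
        nonneg_of_mul_nonneg_right (le_trans (by positivity) h4) (hω0 a)
      have h6 : ω a ≤ 6.3 * (a + 1) / L := by
        simp only [ω]
        refine div_le_div_of_nonneg_right ?_ hL0.le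
        have : (0 : ℝ) ≤ a := Nat.cast_nonneg _
        nlinarith
      have h7 : 0.43 * K ≤ 6.3 * (a + 1) / L * U (ω a) φ K :=
        h4.trans (mul_le_mul_of_nonneg_right h6 h5)
      rw [div_mul_eq_mul_div, le_div_iff₀ hL0] at h7
      rw [mul_one_div, div_le_iff₀ (by positivity)]
      have h9 : 0 ≤ U (ω a) φ K * (a + 1) := by positivity
      nlinarith [mul_pos hK0 hL0]
    have h3 := harm (a0 := 8 * g) (by omega) r
    have h4 : K * L / 16 * ((r : ℝ) / 2) ≤ K * L / 16 * ∑ a ∈ Ico (8 * g) K, 1 / ((a : ℝ) + 1) :=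
      mul_le_mul_of_nonneg_left h3 (by positivity)
    have h5 : ((8 * g : ℕ) : ℝ) ≤ L * r / 64 := by
      have hr' : (4 : ℝ) ≤ r := by exact_mod_cast hr
      have h2r : (16 : ℝ) ≤ 2 ^ r := by
        calc (16 : ℝ) = 2 ^ 4 := by norm_num
          _ ≤ 2 ^ r := pow_le_pow_right₀ (by norm_num) hr
      have h6 : (128 : ℝ) ≤ K := by rw [hKr]; nlinarith
      have h7 : 512 * g ≤ L := by rw [hLK]; nlinarith
      push_cast
      nlinarith
    nlinarith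
  have hsw : ∑ a ∈ range K, U (ω a) φ K = ∑ B ∈ range K, ∑ a ∈ range K, ∑ b ∈ range B,
      sin (2 * π * ((θ + a) * (φ + b) / L)) := by
    unfold U
    rw [Finset.sum_comm]
    refine Finset.sum_congr rfl fun B _ => Finset.sum_congr rfl fun a _ =>
      Finset.sum_congr rfl fun b _ => ?_
    congr 1
    simp only [ω]; ring
  rw [hsw] at hsum
  obtain ⟨B, hB1, hB2⟩ := Finset.exists_le_of_sum_le (s := range K)
    (f := fun _ => L * r / 64) ⟨0, mem_range.2 (by omega)⟩ (by simpa using hsum)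
  exact ⟨B, mem_range.1 hB1, hB2⟩

end Pool.Agent.H377Z.Pring
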